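import Pool.Agent.Helper1.T5b.ZDefs
import Pool.Agent.Helper22.NEARb.Dep

/-!
# T5b (MP_12a1af), lines 6 and 7, Z2: dependence on the keys
-/

set_option autoImplicit false

namespace Pool.Agent.Helper12.T5b

open Finset
open Pool.Agent.Helper5.ET hiding Key Mk AA Rp keysOf el ext
open Pool.Agent.Helper27.T4
open Pool.Agent.Helper27.T5b hiding FF_pos dvd_cs cs_lt QQ_eq_NN c0_lt Jn_pos
open Pool.Agent.Helper37.T5b
open Pool.Agent.Helper30.T5b hiding pz_prime pz_inj NL_pos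
open Pool.Agent.Helper22.HW Pool.Agent.Helper22.SL Pool.Agent.Helper57.T5
open Pool.Agent.Helper39.T5 Pool.Agent.Helper50.T5
open Pool.Agent.Helper84.T5b Pool.Agent.Helper44.T5 Pool.Agent.Helper44.T5b
open Pool.Agent.Helper22.NEARb Pool.Agent.Helper75.T5 Pool.Agent.Helper1.T5
open Pool.Agent.Helper1.T5b

variable {m k l l' : ℕ}

theorem J_mem_keysJ (hm : 0 < m) (hl : bb 0 ≤ mL m k l) {x : JF → ℕ} (hx : x ∈ XJ m k l)
    (P : Finset JF) (i : JF) : Key.J l i (maskJ P x) ∈ keysOf m k l :=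
  Pool.Agent.Helper54.T5b.J_mem (Pool.Agent.Helper54.T5b.maskJ_lt
    (Pool.Agent.Helper54.T5b.Bd_pos m k l) (Pool.Agent.Helper54.T5b.XJ_lt hm hl hx))

theorem c0_congr_keys {w w' : Key → ℕ} {x : JF → ℕ}
    (h : ∀ i, w (Key.J l i (maskJ (preJ m k l i) x)) = w' (Key.J l i (maskJ (preJ m k l i) x))) :
    c0 m k l w x = c0 m k l w' x := by
  unfold c0
  congr 1
  funext i
  unfold cmp0
  rw [h i]

theorem S_not_mem {ls t s : ℕ} {f : Fin 3} {o : JF → ℕ} {y : Fin 3 → ℕ} (ht : t < s) :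
    Key.S ls t f o y ∉ keysJ m k l l' ∪ deep m k l l' s := by
  classical
  rw [mem_union, not_or]
  constructor
  · unfold keysJ
    rw [mem_filter]
    rintro ⟨-, h⟩
    exact h
  · unfold deep keysD
    rw [mem_union, mem_filter, mem_filter]
    rintro (⟨-, h⟩ | ⟨-, h⟩)
    · exact absurd (show s ≤ t from h) (not_le.2 ht)
    · exact absurd (show s ≤ t from h) (not_le.2 ht)

theorem Ys_eq (h : sL m k l' = sL m k l) (t : ℕ) : Ys m k l' t = Ys m k l t := by
  unfold Ys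
  rw [h]

theorem zero_lt (j : JF) : (0 : JF → ℕ) j < Bd m k l := Pool.Agent.Helper54.T5b.Bd_pos m k l

/-- **Z2** -/
theorem keyS {m k : ℕ} (hm : 2 ≤ m) (hk : 3 ≤ k) : KeyS m k := by
  classical
  have hm0 : 0 < m := by omega
  obtain ⟨l0, h0⟩ := exists_conds hm0 k
  refine ⟨l0, fun l' l hl' h => ?_⟩
  obtain ⟨a1, -, -, -⟩ := h0 l' hl'
  obtain ⟨b1, -, -, -⟩ := h0 l (hl'.trans h.le)
  have hs : sL m k l' = sL m k l := h.same
  obtain ⟨g1, g2, g3, g4, g5, g6⟩ := Pool.Agent.Helper27.T5b.rL_bounds hm0 k l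
  obtain ⟨f1, f2, f3, f4, f5, f6⟩ := Pool.Agent.Helper27.T5b.rL_bounds hm0 k l'
  refine ⟨?_, ?_, ?_⟩
  · intro w w' hw q hq
    rw [mem_product] at hq
    unfold sJ
    have e1 : c0 m k l w q.1 = c0 m k l w' q.1 := by
      refine c0_congr_keys (fun i => hw _ ?_)
      unfold keysJ
      rw [mem_filter]
      exact ⟨mem_union_left _ (J_mem_keysJ hm0 b1 hq.1 _ i), trivial⟩
    have e2 : c0 m k l' w q.2 = c0 m k l' w' q.2 := by
      refine c0_congr_keys (fun i => hw _ ?_)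
      unfold keysJ
      rw [mem_filter]
      exact ⟨mem_union_right _ (J_mem_keysJ hm0 a1 hq.2 _ i), trivial⟩
    rw [e1, e2]
  · intro w w' s _ _ _ hw
    exact Bw_congr_deep hm0 b1 a1 hw
  · intro K hK hK'
    refine ⟨?_, ?_, ?_⟩
    · intro x hx y hy f s hs1
      rw [mem_sdiff]
      refine ⟨hK ?_, S_not_mem (by omega)⟩
      exact Pool.Agent.Helper54.T5b.S_mem (Nat.zero_le _)
        (Pool.Agent.Helper54.T5b.okey_lt hm0 b1 hx 0)
        (Pool.Agent.Helper54.T5b.mask_lt (Pool.Agent.Helper54.T5b.Bd_pos m k l)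
          (Pool.Agent.Helper54.T5b.Ys_lt hm0 b1 (by omega) hy))
    · intro x hx y hy f s hs1
      rw [mem_sdiff]
      refine ⟨hK' ?_, S_not_mem (by omega)⟩
      have hy' : y ∈ Ys m k l' 0 := by rw [Ys_eq hs]; exact hy
      exact Pool.Agent.Helper54.T5b.S_mem (Nat.zero_le _)
        (Pool.Agent.Helper54.T5b.okey_lt hm0 a1 hx 0)
        (Pool.Agent.Helper54.T5b.mask_lt (Pool.Agent.Helper54.T5b.Bd_pos m k l')
          (Pool.Agent.Helper54.T5b.Ys_lt hm0 a1 (by omega) hy'))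
    · intro h1 hr1 hr2 r hr i y hy
      have hy1 : y ∈ Ys m k l (1 + r) := hy
      have hy2 : y ∈ Ys m k l' (1 + r) := by rw [Ys_eq hs]; exact hy1
      have e1 : (PZo m k l' l 1 h1 0 0).key r i y = (Ss m k l (1 + r) 0).key i y := by
        show (Ss m k l (1 + r) (if 1 + r = 0 then (0 : JF → ℕ) else 0)).key i y = _
        rw [if_neg (by omega)]
      have e2 : (PZo m k l' l 1 h1 0 0).key' r i y = (Ss m k l' (1 + r) 0).key i y := by
        show (Ss m k l' (1 + r) (if 1 + r = 0 then (0 : JF → ℕ) else 0)).key i y = _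
        rw [if_neg (by omega)]
      rw [e1, e2, mem_sdiff, mem_sdiff]
      exact ⟨⟨hK (Pool.Agent.Helper54.T5b.Skey_mem hm0 b1 (by omega) zero_lt hy1 i),
          S_not_mem (by omega)⟩,
        ⟨hK' (Pool.Agent.Helper54.T5b.Skey_mem hm0 a1 (by omega) zero_lt hy2 i),
          S_not_mem (by omega)⟩⟩

end Pool.Agent.Helper12.T5b
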