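import Pool.Agent.Helper48.T5b.EvInt
import Pool.Agent.Helper30.T5b.NLb
import Pool.Agent.Helper30.T5b.Front

/-!
# T5b, (S3): the numbers of the far pairs across SPLIT
-/

set_option autoImplicit false

namespace Pool.Agent.Helper12.T5b

open Finset

/-! ## exponents -/

/-- the first term, close pairs -/
theorem exp_near {lam D S W Z1 Z2 b κ : ℝ} (hlam : 13 ≤ lam) (hb : 0 ≤ b) (hκ0 : 0 ≤ κ)
    (hW : 512 * Z2 = W) (hS : S = 512 * Z1 - W) (hZ : 2 ^ 30 * Z2 ≤ Z1)
    (hκ : κ + b + 14 ≤ W) (hD : D ≤ S - 3 * Z1) :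
    κ + 3 * lam * W + lam * (50001 / 100000 * D + 1) - (lam * S - b) / 2 ≤ -W := by
  have h1 : κ + b / 2 + W ≤ S / 2 - 50001 / 100000 * D - 3 * W - 1 := by
    norm_num at hZ
    linarith
  have h2 : S / 2 - 50001 / 100000 * D - 3 * W - 1 ≤
      lam * (S / 2 - 50001 / 100000 * D - 3 * W - 1) :=
    le_mul_of_one_le_left (by linarith) (by linarith)
  linarith

/-- the first term, distant pairs -/
theorem exp_far {lam D S W Z1 Z2 b κ : ℝ} (hlam : 13 ≤ lam) (hb : 0 ≤ b) (hκ0 : 0 ≤ κ)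
    (hW : 512 * Z2 = W) (hS : S = 512 * Z1 - W) (hZ : 2 ^ 30 * Z2 ≤ Z1)
    (hκ : κ + b + 14 ≤ W) (hD : S - 3 * Z1 ≤ D) :
    κ + 3 * lam * W + lam * (50001 / 100000 * D + 1) + lam * S / 2 - lam * (D + 5 * Z1) ≤
      -W := by
  have h1 : κ + b / 2 + W ≤ 49999 / 100000 * D + 5 * Z1 - S / 2 - 3 * W - 1 := by
    norm_num at hZ
    linarith
  have h2 : 49999 / 100000 * D + 5 * Z1 - S / 2 - 3 * W - 1 ≤
      lam * (49999 / 100000 * D + 5 * Z1 - S / 2 - 3 * W - 1) :=
    le_mul_of_one_le_left (by linarith) (by linarith)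
  linarith

/-- the second term -/
theorem exp_second {lam D W Z2 b κ : ℝ} (hlam : 13 ≤ lam) (hb : 0 ≤ b) (hκ0 : 0 ≤ κ)
    (hW : 512 * Z2 = W) (hκ : κ + b + 14 ≤ W) (hD : 8 * W ≤ D) :
    κ + 3 * lam * W + lam * (50001 / 100000 * D + 1) - lam * (D - 7 * Z2) ≤ -W := by
  have h1 : κ + W ≤ 13 * (49999 / 100000 * D - 7 * Z2 - 3 * W - 1) := by
    linarith
  have h2 : 13 * (49999 / 100000 * D - 7 * Z2 - 3 * W - 1) ≤
      lam * (49999 / 100000 * D - 7 * Z2 - 3 * W - 1) :=
    mul_le_mul_of_nonneg_right hlam (by linarith)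
  linarith

/-- the numbers of (S3), abstract form -/
theorem s3_real {lam D S W Z1 Z2 b κ nB R nY C Lam μ Q : ℝ} (hlam : 13 ≤ lam) (hb : 0 ≤ b)
    (hκ0 : 0 ≤ κ) (hW : 512 * Z2 = W) (hS : S = 512 * Z1 - W) (hZ : 2 ^ 30 * Z2 ≤ Z1)
    (hκ : κ + b + 14 ≤ W) (hD : 8 * W ≤ D)
    (hC0 : 0 ≤ C) (hLam0 : 0 ≤ Lam) (hμ0 : 0 ≤ μ) (hnY0 : 0 ≤ nY) (hR0 : 0 ≤ R)
    (hnB : nB ≤ Real.exp (lam * W))
    (hR : R ≤ Real.exp (2 * lam * W) * (2 + Real.sqrt Q * Real.exp (-(lam * (D - 7 * Z2)))))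
    (hnY : nY ≤ Real.sqrt Q) (hC : 8 * C ≤ Real.exp κ)
    (hLam : Lam ≤ Real.exp (lam * (50001 / 100000 * D + 1)))
    (hQ1 : Q ≤ Real.exp (lam * S)) (hQ2 : Real.exp (lam * S - b) ≤ Q)
    (hμ1 : μ ≤ 1 / Q) (hμ2 : μ ≤ Real.exp (-(lam * (D + 5 * Z1)))) :
    nB * R * (nY * (C * Lam * (2 * μ))) ≤ Real.exp (-W) := by
  have hQ : 0 < Q := (Real.exp_pos _).trans_le hQ2
  have hsq := Real.sqrt_nonneg Q
  have hss : Real.sqrt Q * Real.sqrt Q = Q := Real.mul_self_sqrt hQ.le
  -- the two terms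
  have hsμ : Real.exp κ * Real.exp (3 * lam * W) * Real.exp (lam * (50001 / 100000 * D + 1)) *
      (Real.sqrt Q * μ) ≤ Real.exp (-W) := by
    rcases le_total D (S - 3 * Z1) with h | h
    · have h1 : Real.sqrt Q * μ ≤ Real.exp (-((lam * S - b) / 2)) := by
        have h2 : Real.exp ((lam * S - b) / 2) ≤ Real.sqrt Q := by
          apply Real.le_sqrt_of_sq_le
          rw [← Real.exp_nat_mul]
          refine le_trans (le_of_eq ?_) hQ2
          congr 1
          push_cast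
          ring
        have h3 : Real.sqrt Q * μ ≤ Real.sqrt Q * (1 / Q) := mul_le_mul_of_nonneg_left hμ1 hsq
        have h4 : Real.sqrt Q * (1 / Q) = 1 / Real.sqrt Q := by
          have h5 : Real.sqrt Q ≠ 0 := (Real.sqrt_pos.2 hQ).ne'
          field_simp
          nlinarith
        rw [h4] at h3
        refine h3.trans ?_
        rw [Real.exp_neg, one_div]
        exact inv_anti₀ (Real.exp_pos _) h2
      calc _ ≤ Real.exp κ * Real.exp (3 * lam * W) *
            Real.exp (lam * (50001 / 100000 * D + 1)) * Real.exp (-((lam * S - b) / 2)) := by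
            gcongr
        _ = Real.exp (κ + 3 * lam * W + lam * (50001 / 100000 * D + 1) - (lam * S - b) / 2) := by
            rw [← Real.exp_add, ← Real.exp_add, ← Real.exp_add]
            congr 1
        _ ≤ _ := Real.exp_le_exp.2 (exp_near hlam hb hκ0 hW hS hZ hκ h)
    · have h1 : Real.sqrt Q * μ ≤ Real.exp (lam * S / 2) * Real.exp (-(lam * (D + 5 * Z1))) := by
        have h2 : Real.sqrt Q ≤ Real.exp (lam * S / 2) := by
          apply Real.sqrt_le_iff.2
          refine ⟨(Real.exp_pos _).le, ?_⟩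
          rw [← Real.exp_nat_mul]
          refine le_trans hQ1 (le_of_eq ?_)
          congr 1
          push_cast
          ring
        exact mul_le_mul h2 hμ2 hμ0 (Real.exp_pos _).le
      calc _ ≤ Real.exp κ * Real.exp (3 * lam * W) *
            Real.exp (lam * (50001 / 100000 * D + 1)) *
              (Real.exp (lam * S / 2) * Real.exp (-(lam * (D + 5 * Z1)))) := by
            gcongr
        _ = Real.exp (κ + 3 * lam * W + lam * (50001 / 100000 * D + 1) + lam * S / 2 -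
              lam * (D + 5 * Z1)) := by
            rw [← Real.exp_add, ← Real.exp_add, ← Real.exp_add, ← Real.exp_add]
            congr 1
            ring
        _ ≤ _ := Real.exp_le_exp.2 (exp_far hlam hb hκ0 hW hS hZ hκ h)
  have hQμ : Real.exp κ * Real.exp (3 * lam * W) * Real.exp (lam * (50001 / 100000 * D + 1)) *
      (Q * μ * Real.exp (-(lam * (D - 7 * Z2)))) ≤ Real.exp (-W) := by
    have h1 : Q * μ ≤ 1 := by
      have := mul_le_mul_of_nonneg_left hμ1 hQ.le
      rwa [mul_one_div_cancel hQ.ne'] at this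
    calc _ ≤ Real.exp κ * Real.exp (3 * lam * W) *
          Real.exp (lam * (50001 / 100000 * D + 1)) * (1 * Real.exp (-(lam * (D - 7 * Z2)))) := by
          gcongr
      _ = Real.exp (κ + 3 * lam * W + lam * (50001 / 100000 * D + 1) - lam * (D - 7 * Z2)) := by
          rw [one_mul, ← Real.exp_add, ← Real.exp_add, ← Real.exp_add]
          congr 1
      _ ≤ _ := Real.exp_le_exp.2 (exp_second hlam hb hκ0 hW hκ hD)
  have e3 : Real.exp (3 * lam * W) = Real.exp (lam * W) * Real.exp (2 * lam * W) := by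
    rw [← Real.exp_add]
    congr 1
    ring
  have hE := (Real.exp_pos (-(lam * (D - 7 * Z2)))).le
  calc nB * R * (nY * (C * Lam * (2 * μ)))
      ≤ Real.exp (lam * W) * (Real.exp (2 * lam * W) *
          (2 + Real.sqrt Q * Real.exp (-(lam * (D - 7 * Z2))))) *
          (Real.sqrt Q * (C * Real.exp (lam * (50001 / 100000 * D + 1)) * (2 * μ))) := by
        gcongr
    _ = 1 / 2 * ((8 * C) * Real.exp (3 * lam * W) * Real.exp (lam * (50001 / 100000 * D + 1)) *
          (Real.sqrt Q * μ)) +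
        1 / 4 * ((8 * C) * Real.exp (3 * lam * W) * Real.exp (lam * (50001 / 100000 * D + 1)) *
          (Real.sqrt Q * Real.sqrt Q * μ * Real.exp (-(lam * (D - 7 * Z2))))) := by
        rw [e3]
        ring
    _ ≤ 1 / 2 * Real.exp (-W) + 1 / 4 * Real.exp (-W) := by
        rw [hss]
        refine add_le_add ?_ ?_
        · refine mul_le_mul_of_nonneg_left (le_trans ?_ hsμ) (by norm_num)
          gcongr
        · refine mul_le_mul_of_nonneg_left (le_trans ?_ hQμ) (by norm_num)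
          gcongr
    _ ≤ Real.exp (-W) := by
        have := Real.exp_pos (-W)
        linarith

/-! ## the instance -/

open Pool.Agent.Helper5.ET Pool.Agent.Helper27.T4
open Pool.Agent.Helper27.T5b Pool.Agent.Helper37.T5b Pool.Agent.Helper30.T5b
open Pool.Agent.Helper84.T5b (Jn)
open Pool.Agent.Helper48.T5b (Cpl)

variable {m k : ℕ}

theorem Jn_lower {s x y : ℕ} (hx : NL m k x = RT m k s * Jn m k s x)
    (hy : NL m k y = RT m k s * Jn m k s y) (h : x ≤ y) :
    Jn m k s x * (10 ^ 6) ^ (y - x) ≤ Jn m k s y := by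
  have h1 := NL_lower m k h
  rw [hx, hy, mul_assoc] at h1
  exact Nat.le_of_mul_le_mul_left h1 (RT_pos m k s)

theorem exists_Jn_upper (hm : 0 < m) (k : ℕ) : ∃ l0 C : ℕ, ∀ s x y n, l0 ≤ x → x ≤ y →
    NL m k x = RT m k s * Jn m k s x → NL m k y = RT m k s * Jn m k s y →
    10001 * (y - x) + C ≤ 10000 * n → Jn m k s y ≤ Jn m k s x * (10 ^ 6) ^ n := by
  obtain ⟨l0, C, h0⟩ := exists_NL_le (k := k) hm
  refine ⟨l0, C, fun s x y n h1 h2 hx hy h3 => ?_⟩
  have h4 := h0 x y n h1 h2 h3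
  rw [hx, hy, mul_assoc] at h4
  exact Nat.le_of_mul_le_mul_left h4 (RT_pos m k s)

/-- **(S3), the numbers.**  `SS m s` is the size of the outermost static level of the lower state;
`A`, `A'` are the ranges of the main joint codes, `N` the unit of the windows. -/
theorem s3_num (hm : 0 < m) (k : ℕ) (C0 : ℝ) : ∃ l0 : ℕ, ∀ s l' l, l0 ≤ l' → l0 ≤ SS m s →
    l' ≤ l → (∀ x, l' ≤ x → x ≤ ez m (s + 1) l → NL m k x = RT m k (s + 1) * Jn m k (s + 1) x) →
    8 * SS m s ≤ l - l' → ∀ nB R nY C Lam q : ℝ, 0 ≤ R → 0 ≤ nY → 0 ≤ C → 0 ≤ Lam →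
    nB ≤ (10 ^ 6) ^ SS m s →
    R ≤ (10 ^ 6) ^ (2 * SS m s) *
      (1 + ((Jn m k (s + 1) (ez m (s + 1) l) : ℝ) +
        Jn m k (s + 1) (ez m s l') * QT m k (s + 1)) /
          (Jn m k (s + 1) l * Real.sqrt (QT m k (s + 1)))) →
    nY ≤ Real.sqrt (QT m k (s + 1)) → C ≤ C0 → Lam ≤ 1000039 ^ ((l - l' + 1) / 2) →
    (QT m k (s + 1) : ℝ) ≤ q →
    (Jn m k (s + 1) (ez m (s + 1) l) : ℝ) ≤ Jn m k (s + 1) (ez m s l') * q →
    nB * R * (nY * (C * Lam * (min (1 / (QT m k (s + 1) : ℝ))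
      ((Jn m k (s + 1) (ez m s l') : ℝ) / Jn m k (s + 1) (ez m (s + 1) l)) + 1 / q))) ≤
        Real.exp (-(SS m s : ℝ)) := by
  obtain ⟨l1, C1, h1⟩ := exists_Jn_upper hm k
  -- constants
  set b : ℝ := Real.log ((BP k : ℝ) ^ 3) with hb
  set κ : ℝ := Real.log (8 * max C0 1) with hκ
  have hBP1 : (1 : ℝ) ≤ (BP k : ℝ) ^ 3 := by
    have : (1 : ℝ) ≤ (BP k : ℝ) := by exact_mod_cast BP_pos k
    exact one_le_pow₀ this
  have hb0 : 0 ≤ b := Real.log_nonneg hBP1
  have hκ0 : 0 ≤ κ := Real.log_nonneg (by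
    have := le_max_right C0 1
    linarith)
  refine ⟨max l1 (max C1 (⌈κ + b + 14⌉₊ + 512)), fun s l' l hl1 hs1 hl hC hD nB R nY C Lam q
    hR0 hnY0 hC0 hLam0 hnB hR hnY hCC hLam hq1 hq2 => ?_⟩
  simp only [max_le_iff] at hl1 hs1
  obtain ⟨hl1, -, -⟩ := hl1
  obtain ⟨-, hs1, hs2⟩ := hs1
  have hs3 : κ + b + 14 ≤ SS m s := by
    have h2 := Nat.le_ceil (κ + b + 14)
    have h3 : ((⌈κ + b + 14⌉₊ + 512 : ℕ) : ℝ) ≤ SS m s := by exact_mod_cast hs2
    push_cast at h3
    linarith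
  -- the sizes
  have z1 := PZ_mul hm s
  have z2 := PZ_mul hm (s + 1)
  have z3 := PZ_succ_ge hm s
  have z4 : 2 ^ 30 * PZ m s ≤ PZ m (s + 1) :=
    (Nat.mul_le_mul_right _ (Nat.pow_le_pow_right (by norm_num) (by norm_num))).trans z3
  have z5 : SS m s + Sg m (s + 1) = SS m (s + 1) := by
    have := SS_add_Sg m (s + 1)
    rwa [Nat.add_sub_cancel] at this
  have e1 := two_ez_le m (s + 1) l
  have e2 := lt_two_ez hm (s + 1) l
  have e3 := two_ez_le m s l'
  have e4 := lt_two_ez hm s l'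
  have hA := hC (ez m (s + 1) l) (by omega) le_rfl
  have hN := hC l hl (by omega)
  have hA' := hC (ez m s l') (by omega) (by omega)
  have n1 : ez m s l' ≤ l := by omega
  have n2 : ez m s l' ≤ ez m (s + 1) l := by omega
  have a1 := Jn_lower hA' hN n1
  have a2 := Jn_lower hA' hA n2
  have a3 := h1 (s + 1) l (ez m (s + 1) l) (7 * PZ m (s + 1)) (by omega) (by omega) hN hA
    (by norm_num at z4; omega)
  have q1 := QT_le hm k (s + 1)
  have q2 := le_QT_mul hm k (s + 1)
  have p1 := Pool.Agent.Helper48.T5b.Jn_pos m k (s + 1) (ez m (s + 1) l)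
  have p2 := Pool.Agent.Helper48.T5b.Jn_pos m k (s + 1) (ez m s l')
  have p3 := Pool.Agent.Helper48.T5b.Jn_pos m k (s + 1) l
  have p4 := QT_pos m k (s + 1)
  -- real versions
  set A : ℝ := (Jn m k (s + 1) (ez m (s + 1) l) : ℝ) with hAd
  set A' : ℝ := (Jn m k (s + 1) (ez m s l') : ℝ) with hA'd
  set N : ℝ := (Jn m k (s + 1) l : ℝ) with hNd
  set Q : ℝ := (QT m k (s + 1) : ℝ) with hQd
  set lam : ℝ := Real.log (10 ^ 6) with hlam
  have hlam13 : 13 ≤ lam := by
    have := Pool.Agent.Helper30.T5.log_million_gt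
    linarith
  have P1 : 0 < A := by rw [hAd]; exact_mod_cast p1
  have P2 : 0 < A' := by rw [hA'd]; exact_mod_cast p2
  have P3 : 0 < N := by rw [hNd]; exact_mod_cast p3
  have P4 : 0 < Q := by rw [hQd]; exact_mod_cast p4
  have hpow : ∀ n : ℕ, ((10 : ℝ) ^ 6) ^ n = Real.exp (lam * n) := by
    intro n
    rw [mul_comm, Real.exp_nat_mul, hlam, Real.exp_log (by positivity)]
  have c1 : A' * Real.exp (lam * ((l : ℝ) - ez m s l')) ≤ N := by
    have : A' * ((10 : ℝ) ^ 6) ^ (l - ez m s l') ≤ N := by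
      rw [hA'd, hNd]
      exact_mod_cast a1
    rwa [hpow, Nat.cast_sub n1] at this
  have c2 : A' * Real.exp (lam * ((ez m (s + 1) l : ℝ) - ez m s l')) ≤ A := by
    have : A' * ((10 : ℝ) ^ 6) ^ (ez m (s + 1) l - ez m s l') ≤ A := by
      rw [hA'd, hAd]
      exact_mod_cast a2
    rwa [hpow, Nat.cast_sub n2] at this
  have c3 : A ≤ N * Real.exp (lam * (7 * PZ m (s + 1))) := by
    have : A ≤ N * ((10 : ℝ) ^ 6) ^ (7 * PZ m (s + 1)) := by
      rw [hAd, hNd]
      exact_mod_cast a3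
    rw [hpow] at this
    push_cast at this
    exact this
  have c4 : Q ≤ Real.exp (lam * Sg m (s + 1)) := by
    rw [← hpow, hQd]
    exact_mod_cast q1
  have c5 : Real.exp (lam * Sg m (s + 1) - b) ≤ Q := by
    rw [Real.exp_sub, hb, Real.exp_log (by positivity), ← hpow, div_le_iff₀ (by positivity), hQd]
    exact_mod_cast q2
  set D : ℝ := (l : ℝ) - l' with hDd
  set W : ℝ := (SS m s : ℝ) with hWd
  set S : ℝ := (Sg m (s + 1) : ℝ) with hSd
  set Z1 : ℝ := (PZ m (s + 1) : ℝ) with hZ1d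
  set Z2 : ℝ := (PZ m s : ℝ) with hZ2d
  have r1 : 512 * Z2 = W := by
    rw [hZ2d, hWd]
    exact_mod_cast z1
  have r2 : S = 512 * Z1 - W := by
    have y1 : (512 : ℝ) * Z1 = SS m (s + 1) := by
      rw [hZ1d]
      exact_mod_cast z2
    have y2 : W + S = (SS m (s + 1) : ℝ) := by
      rw [hWd, hSd]
      exact_mod_cast z5
    linarith
  have r3 : 2 ^ 30 * Z2 ≤ Z1 := by
    rw [hZ1d, hZ2d]
    exact_mod_cast z4
  have r4 : 8 * W ≤ D := by
    have : ((8 * SS m s + l' : ℕ) : ℝ) ≤ l := by exact_mod_cast (by omega : 8 * SS m s + l' ≤ l)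
    push_cast at this
    linarith
  have E1 : 2 * (ez m (s + 1) l : ℝ) ≤ 2 * l + 13 * Z1 := by
    rw [hZ1d]
    exact_mod_cast e1
  have E2 : 2 * (l : ℝ) + 11 * Z1 ≤ 2 * ez m (s + 1) l := by
    rw [hZ1d]
    exact_mod_cast e2.le
  have E3 : 2 * (ez m s l' : ℝ) ≤ 2 * l' + 13 * Z2 := by
    rw [hZ2d]
    exact_mod_cast e3
  have hZ20 : 0 ≤ Z2 := by positivity
  have hlam0 : 0 < lam := by linarith
  have hsq : 0 < Real.sqrt Q := Real.sqrt_pos.2 P4
  have hss : Real.sqrt Q * Real.sqrt Q = Q := Real.mul_self_sqrt P4.le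
  -- the windows in an interval
  have t1 : A / (N * Real.sqrt Q) ≤ 1 := by
    rw [div_le_one (by positivity)]
    refine c3.trans (mul_le_mul_of_nonneg_left ?_ P3.le)
    refine le_trans ?_ (Real.sqrt_le_sqrt c5)
    apply Real.le_sqrt_of_sq_le
    rw [← Real.exp_nat_mul, Real.exp_le_exp]
    push_cast
    have h2 : b ≤ 1 * (S - 14 * Z1) := by
      rw [r2]
      norm_num at r3
      linarith
    have h3 : 1 * (S - 14 * Z1) ≤ lam * (S - 14 * Z1) :=
      mul_le_mul_of_nonneg_right (by linarith) (by linarith)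
    linarith
  have t2 : A' * Q / (N * Real.sqrt Q) ≤ Real.sqrt Q * Real.exp (-(lam * (D - 7 * Z2))) := by
    have h2 : A' * Real.exp (lam * (D - 7 * Z2)) ≤ N := by
      refine le_trans (mul_le_mul_of_nonneg_left (Real.exp_le_exp.2 ?_) P2.le) c1
      exact mul_le_mul_of_nonneg_left (by rw [hDd]; linarith) hlam0.le
    have h3 : A' ≤ N * Real.exp (-(lam * (D - 7 * Z2))) := by
      rw [Real.exp_neg, ← div_eq_mul_inv, le_div_iff₀ (Real.exp_pos _)]
      exact h2
    rw [div_le_iff₀ (by positivity)]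
    calc A' * Q ≤ N * Real.exp (-(lam * (D - 7 * Z2))) * Q :=
          mul_le_mul_of_nonneg_right h3 P4.le
      _ = N * Real.exp (-(lam * (D - 7 * Z2))) * (Real.sqrt Q * Real.sqrt Q) := by rw [hss]
      _ = _ := by ring
  have hR' : R ≤ Real.exp (2 * lam * W) *
      (2 + Real.sqrt Q * Real.exp (-(lam * (D - 7 * Z2)))) := by
    refine hR.trans ?_
    rw [hpow]
    have h2 : lam * ((2 * SS m s : ℕ) : ℝ) = 2 * lam * W := by
      push_cast
      ring
    rw [h2]
    refine mul_le_mul_of_nonneg_left ?_ (Real.exp_pos _).le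
    rw [add_div]
    linarith
  -- the probability of one candidate
  set μ : ℝ := min (1 / Q) (A' / A) with hμ
  have hμ0 : 0 ≤ μ := le_min (by positivity) (by positivity)
  have hμ1 : μ ≤ 1 / Q := min_le_left _ _
  have hμ2 : μ ≤ Real.exp (-(lam * (D + 5 * Z1))) := by
    refine (min_le_right _ _).trans ?_
    rw [div_le_iff₀ P1, Real.exp_neg, inv_mul_eq_div, le_div_iff₀ (Real.exp_pos _)]
    refine le_trans (mul_le_mul_of_nonneg_left (Real.exp_le_exp.2 ?_) P2.le) c2
    refine mul_le_mul_of_nonneg_left ?_ hlam0.le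
    rw [hDd]
    norm_num at r3
    linarith
  have hq0 : 0 < q := P4.trans_le hq1
  have hqμ : 1 / q ≤ μ := by
    refine le_min (one_div_le_one_div_of_le P4 hq1) ?_
    rw [div_le_div_iff₀ hq0 P1]
    linarith
  have hLam' : Lam ≤ Real.exp (lam * (50001 / 100000 * D + 1)) := by
    refine hLam.trans ?_
    have h2 : (1000039 : ℝ) ≤ Real.exp (lam * (1 + 1 / 200000)) := by
      have h3 : (1000039 : ℝ) = 10 ^ 6 * (1 + 39 / 1000000) := by norm_num
      have h4 : Real.exp (lam * (1 + 1 / 200000)) = 10 ^ 6 * Real.exp (lam / 200000) := by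
        have : lam * (1 + 1 / 200000) = lam + lam / 200000 := by ring
        rw [this, Real.exp_add, hlam, Real.exp_log (by positivity)]
      rw [h3, h4]
      refine mul_le_mul_of_nonneg_left ?_ (by positivity)
      have := Real.add_one_le_exp (lam / 200000)
      linarith
    calc (1000039 : ℝ) ^ ((l - l' + 1) / 2)
        ≤ Real.exp (lam * (1 + 1 / 200000)) ^ ((l - l' + 1) / 2) := by gcongr
      _ = Real.exp (lam * (1 + 1 / 200000) * (((l - l' + 1) / 2 : ℕ) : ℝ)) := by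
          rw [mul_comm (lam * (1 + 1 / 200000)), Real.exp_nat_mul]
      _ ≤ _ := by
          apply Real.exp_le_exp.2
          have h5 : (((l - l' + 1) / 2 : ℕ) : ℝ) ≤ (D + 1) / 2 := by
            have h6 := Nat.cast_div_le (α := ℝ) (m := l - l' + 1) (n := 2)
            have h7 : ((l - l' + 1 : ℕ) : ℝ) = D + 1 := by
              push_cast [Nat.cast_sub hl]
              ring
            rw [h7] at h6
            push_cast at h6
            exact h6
          have h8 : (1 + 1 / 200000) * (((l - l' + 1) / 2 : ℕ) : ℝ) ≤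
              50001 / 100000 * D + 1 := by
            have : 0 ≤ D := by linarith
            linarith
          rw [mul_assoc]
          exact mul_le_mul_of_nonneg_left h8 hlam0.le
  have hnB' : nB ≤ Real.exp (lam * W) := by
    rw [hpow] at hnB
    exact hnB
  have hC' : 8 * C ≤ Real.exp κ := by
    rw [hκ, Real.exp_log (by positivity)]
    have := le_max_left C0 1
    linarith
  have hfin := s3_real (b := b) (κ := κ) hlam13 hb0 hκ0 r1 r2 r3 hs3 r4 hC0 hLam0 hμ0 hnY0 hR0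
    hnB' hR' hnY hC' hLam' c4 c5 hμ1 hμ2
  rcases le_or_gt 0 nB with hn | hn
  · refine le_trans ?_ hfin
    have : μ + 1 / q ≤ 2 * μ := by linarith
    gcongr
  · refine le_trans ?_ (Real.exp_pos _).le
    have h2 : 0 ≤ R * (nY * (C * Lam * (μ + 1 / q))) := by positivity
    rw [mul_assoc]
    exact mul_nonpos_of_nonpos_of_nonneg hn.le h2

end Pool.Agent.Helper12.T5b
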