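import Pool.Agent.Helper12.T5b.NumS3
import Pool.Agent.Helper54.T5b.MSplit
import Pool.Agent.Helper30.T5b.Level
import Pool.Agent.Helper97.ET.Cnt

/-!
# T5b, (S3): the constants of the main level of a pair across SPLIT
-/

set_option autoImplicit false

namespace Pool.Agent.Helper12.T5b

open Finset Pool.Agent.Helper27.T4 Pool.Agent.Helper84.T5b Pool.Agent.Helper37.T5b
  Pool.Agent.Helper30.T5b Pool.Agent.Helper27.T5b
open Pool.Agent.Helper5.ET hiding Key keysOf Mk
open Pool.Agent.Helper3.T5 Pool.Agent.Helper39.T5 Pool.Agent.Helper54.T5b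

variable {m k l' l : ℕ} {o o' : JF → ℕ}

theorem pJ_le_BP (k s : ℕ) (i : JF) : pJ k s i ≤ BP k := by
  rcases i with f | i
  · exact pr_le_BP k f
  · refine Fin.cases ?_ (fun f => ?_) i
    · exact (buf_lt_BP k).le
    · exact pz_le k (s + 1) f

theorem MSp_Ne : (MSp m k l' l o o').Ne = Jn m k (sL m k l) (ef m k l 0) := rfl

theorem MSp_Ne' : (MSp m k l' l o o').Ne' = Jn m k (sL m k l) (ef m k l' 0) := rfl

/-- the decoding constant -/
theorem MSp_C_le : (MSp m k l' l o o').C ≤ (2 * BP k) ^ 7 := by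
  have h1 : (MSp m k l' l o o').C = ∏ i : JF, (2 * (pJ k (sL m k l) i - 1)) := rfl
  rw [h1]
  refine (Finset.prod_le_pow_card _ _ (2 * BP k) (fun i _ => ?_)).trans (le_of_eq ?_)
  · have := pJ_le_BP k (sL m k l) i
    omega
  · have e : Fintype.card JF = 7 := by
      rw [Fintype.card_sum, Fintype.card_fin, Fintype.card_fin]
    rw [Finset.card_univ, e]

/-- the number of labels in a class -/
theorem MSp_Lam_le (h : SplitDig m k l' l) :
    (MSp m k l' l o o').Lam ≤ 1000039 ^ ((l - l' + 1) / 2) := by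
  have h1 : (MSp m k l' l o o').Lam = ∏ i ∈ univ.erase (Sum.inl (fam (era (mL m k l) + 2)) : JF),
      pJ k (sL m k l) i ^ ((aJ m k (sL m k l) l i + aJ m k (sL m k l) l' i -
        2 * aJ m k (sL m k l) (ef m k l' 0) i) / 2) := rfl
  rw [h1]
  have h2 : ∀ i ∈ univ.erase (Sum.inl (fam (era (mL m k l) + 2)) : JF),
      i ≠ Sum.inl (fam (era (mL m k l))) → pJ k (sL m k l) i ^ ((aJ m k (sL m k l) l i +
        aJ m k (sL m k l) l' i - 2 * aJ m k (sL m k l) (ef m k l' 0) i) / 2) = 1 := by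
    intro i _ hi
    have h3 : aJ m k (sL m k l) l i = aJ m k (sL m k l) l' i := by
      rcases i with f | i
      · exact h.stat l h.ll.le h.le f (fun hc => hi (by rw [hc]))
      · revert hi
        refine Fin.cases (fun _ => ?_) (fun f _ => ?_) i
        · exact h.buf l h.ll.le h.le
        · rw [h.nb0 l h.ll.le h.le f, h.nb0 l' le_rfl (h.ll.le.trans h.le) f]
    have h4 := Pool.Agent.Helper54.T5b.aJ_mono (m := m) (k := k) (s := sL m k l) h.le' i
    have h5 : (aJ m k (sL m k l) l i + aJ m k (sL m k l) l' i -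
        2 * aJ m k (sL m k l) (ef m k l' 0) i) / 2 = 0 := by
      rw [h3]
      omega
    rw [h5, pow_zero]
  rw [Finset.prod_eq_single_of_mem (Sum.inl (fam (era (mL m k l))))
    (mem_erase.2 ⟨fun hc => fam_two_ne _ (Sum.inl.inj hc).symm, mem_univ _⟩) h2]
  have h6 : pJ k (sL m k l) (Sum.inl (fam (era (mL m k l)))) ≤ 1000039 := by
    rw [pJ_inl]
    exact (pr_lt_buf _).le
  have h7 : aJ m k (sL m k l) l (Sum.inl (fam (era (mL m k l)))) ≤
      aJ m k (sL m k l) l' (Sum.inl (fam (era (mL m k l)))) + (l - l') := by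
    rw [aJ_inl, aJ_inl]
    exact ct_sub_le _ h.ll.le
  have h8 := Pool.Agent.Helper54.T5b.aJ_mono (m := m) (k := k) (s := sL m k l) h.le'
    (Sum.inl (fam (era (mL m k l))))
  exact (Nat.pow_le_pow_left h6 _).trans (Nat.pow_le_pow_right (by norm_num) (by omega))

/-- the modulus of the fresh family is huge -/
theorem exists_q (hm : 0 < m) (k : ℕ) : ∃ l0 : ℕ, ∀ l' l (o o' : JF → ℕ), l0 ≤ l' →
    SplitDig m k l' l → l - l' ≤ 2 ^ 20 * SS m (sL m k l) →
    (∀ x, l' ≤ x → x ≤ ez m (sL m k l) l →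
      NL m k x = RT m k (sL m k l) * Jn m k (sL m k l) x) →
    QT m k (sL m k l) ≤ (MSp m k l' l o o').q ∧
      (MSp m k l' l o o').Ne ≤ (MSp m k l' l o o').Ne' * (MSp m k l' l o o').q := by
  obtain ⟨y0, hy0⟩ := Pool.Agent.Helper97.ET.cnt_ge
  obtain ⟨la, C1, h1⟩ := exists_Jn_upper hm k
  obtain ⟨lb, h2⟩ := exists_late (k := k) hm (y0 + C1 + 1) 0
  refine ⟨max la lb, fun l' l o o' hl0 hd hD hC => ?_⟩
  obtain ⟨hl1, hl2⟩ := max_le_iff.1 hl0
  have hll := hd.ll
  obtain ⟨a1, a2, a3, -, -⟩ := h2 l (by omega)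
  set y := mL m k l with hy
  have hyd : y = l1 (ins m k) l := rfl
  rw [← hyd] at a1 a2 a3
  have b1 := SS_sv_succ_le hm a3
  have hs : sL m k l = sv m k y := rfl
  have b2 := (era_spec y a2).1
  have b3 := SS_succ_ge hm (sL m k l)
  rw [← hs] at b1
  have b4 := (hy0 y (by omega) (fam (era y + 2))).1
  have b5 : y ≤ 6 * cnt (fam (era y + 2)) y := by
    have : (y : ℝ) ≤ 6 * (cnt (fam (era y + 2)) y : ℝ) := by linarith
    exact_mod_cast this
  have b6 : 2 ^ 247 * SS m (sL m k l) ≤ cnt (fam (era y + 2)) y := by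
    have e : (2 : ℕ) ^ 250 = 8 * 2 ^ 247 := by norm_num
    rw [e, mul_assoc] at b3
    omega
  have b7 : C1 < 6 * cnt (fam (era y + 2)) y := by omega
  have b8 := SS_pos m (sL m k l)
  -- the exponent of the fresh family
  have c1 : (MSp m k l' l o o').q = pr (fam (era y + 2)) ^
      ct (ins m k) own (ex m k) (Sum.inl (fam (era y + 2))) (ef m k l 0) := rfl
  have c2 : cnt (fam (era y + 2)) y ≤
      ct (ins m k) own (ex m k) (Sum.inl (fam (era y + 2))) (ef m k l 0) := by
    have e1 : ct (ins m k) own (ex m k) (Sum.inl (fam (era y + 2))) l =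
        cnt (fam (era y + 2)) y := Pool.Agent.Helper48.T5b.cT_main m k _ l
    rw [← e1]
    exact Pool.Agent.Helper54.T5b.ct_mono _ hd.le
  have c3 : (10 ^ 6) ^ cnt (fam (era y + 2)) y ≤ (MSp m k l' l o o').q := by
    rw [c1]
    exact (Nat.pow_le_pow_left (million_le_pr _) _).trans
      (Nat.pow_le_pow_right (pr_prime _).pos c2)
  have z1 := PZ_mul hm (sL m k l)
  have z5 := SS_add_Sg m (sL m k l)
  constructor
  · refine (QT_le hm k (sL m k l)).trans (le_trans ?_ c3)
    refine Nat.pow_le_pow_right (by norm_num) ?_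
    have : SS m (sL m k l) ≤ 2 ^ 247 * SS m (sL m k l) := Nat.le_mul_of_pos_left _ (by positivity)
    omega
  · rw [MSp_Ne, MSp_Ne']
    have e0 : ef m k l 0 = ez m (sL m k l) l := by
      unfold ef
      rw [Nat.sub_zero]
    have f1 := two_ez_le m (sL m k l) l
    have f2 := lt_ez hm (sL m k l) l
    have f3 := hd.le'
    have f4 := hd.ee
    have f5 := h1 (sL m k l) (ef m k l' 0) (ef m k l 0) (cnt (fam (era y + 2)) y) (by omega) f4
      (hC _ f3 (by rw [← e0]; exact f4)) (hC _ (by omega) (le_of_eq e0)) (by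
        have g1 : ef m k l 0 - ef m k l' 0 ≤ 2 ^ 21 * SS m (sL m k l) := by
          rw [e0]
          omega
        have g2 : 2 ^ 40 * (2 ^ 21 * SS m (sL m k l)) ≤ cnt (fam (era y + 2)) y := by
          refine le_trans ?_ b6
          rw [← mul_assoc, ← pow_add]
          exact Nat.mul_le_mul_right _ (Nat.pow_le_pow_right (by norm_num) (by norm_num))
        norm_num at g2
        norm_num at g1
        omega)
    exact f5.trans (Nat.mul_le_mul_left _ c3)

end Pool.Agent.Helper12.T5b
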