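import Pool.Agent.Helper12.T5b.NumS3b

/-!
# T5b, (S3): the final number of the pairs across SPLIT
-/

set_option autoImplicit false

namespace Pool.Agent.Helper12.T5b

open Finset Pool.Agent.Helper27.T4 Pool.Agent.Helper84.T5b Pool.Agent.Helper37.T5b
  Pool.Agent.Helper30.T5b Pool.Agent.Helper27.T5b
open Pool.Agent.Helper5.ET hiding Key keysOf Mk
open Pool.Agent.Helper3.T5 Pool.Agent.Helper39.T5 Pool.Agent.Helper54.T5b

variable {m k l' l : ℕ} {o o' : JF → ℕ}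

/-- late states have large static levels -/
theorem exists_SS_large (hm : 0 < m) (k Y : ℕ) : ∃ l0 : ℕ, ∀ l ≥ l0, Y ≤ SS m (sL m k l) := by
  obtain ⟨l0, h0⟩ := exists_late (k := k) hm (4 * SS m (Y + 2)) 0
  refine ⟨l0, fun l hl => ?_⟩
  obtain ⟨a1, a2, -, -, -⟩ := h0 l hl
  have h1 := lt_SS hm k a2
  have h2 : SS m (Y + 2) < SS m (sv m k (l1 (ins m k) l) + 2) := by omega
  have h3 : Y + 2 < sv m k (l1 (ins m k) l) + 2 := (SS_strictMono m).lt_iff_lt.1 h2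
  have h4 : sL m k l = sv m k (l1 (ins m k) l) := rfl
  have h5 := (SS_strictMono m).le_apply (x := sL m k l)
  omega

/-- **the final number of (S3)** -/
theorem s3_fin (hm : 0 < m) (k : ℕ) : ∃ l0 : ℕ, ∀ l' l (o o' : JF → ℕ), l0 ≤ l' →
    SplitDig m k l' l → 8 * SS m (sL m k l') ≤ l - l' → l - l' ≤ 2 ^ 20 * SS m (sL m k l) →
    (∀ x, l' ≤ x → x ≤ ez m (sL m k l) l →
      NL m k x = RT m k (sL m k l) * Jn m k (sL m k l) x) →
    ∀ nB nR nY : ℕ, nB ≤ 17 * RT m k (sL m k l') →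
    nR ≤ ⌈(10 : ℝ) ^ (6 * (2 * SS m (sL m k l'))) * (1 + ((FF m k l 0 : ℝ) +
      Jn m k (sL m k l) (ef m k l' 0) * QT m k (sL m k l)) /
        (Jn m k (sL m k l) l * Real.sqrt (QT m k (sL m k l))))⌉₊ →
    (nY : ℝ) ≤ Real.sqrt (QT m k (sL m k l)) →
    ((nB * nR : ℕ) : ℝ) * (nY * ((MSp m k l' l o o').C * (MSp m k l' l o o').Lam *
      (min (1 / (QT m k (sL m k l) : ℝ)) (((MSp m k l' l o o').Ne' : ℝ) /
        (MSp m k l' l o o').Ne) + 1 / (MSp m k l' l o o').q))) ≤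
      Real.exp (-(SS m (sL m k l') : ℝ)) := by
  obtain ⟨la, h1⟩ := s3_num hm k (34 * (2 * BP k) ^ 7)
  obtain ⟨lb, h2⟩ := exists_q hm k
  obtain ⟨lc, h3⟩ := exists_SS_large hm k la
  refine ⟨max la (max lb lc), fun l' l o o' hl0 hd hD hD2 hC nB nR nY hnB hnR hnY => ?_⟩
  simp only [max_le_iff] at hl0
  obtain ⟨l1, l2, l3⟩ := hl0
  obtain ⟨q1, q2⟩ := h2 l' l o o' l2 hd hD2 hC
  have hs : sL m k l = sL m k l' + 1 := hd.ss
  have e0 : ef m k l 0 = ez m (sL m k l) l := by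
    unfold ef
    rw [Nat.sub_zero]
  have e1 : ef m k l' 0 = ez m (sL m k l') l' := by
    unfold ef
    rw [Nat.sub_zero]
  have hR0 : (0 : ℝ) ≤ (nR : ℝ) := Nat.cast_nonneg _
  set X : ℝ := (10 : ℝ) ^ (6 * (2 * SS m (sL m k l'))) * (1 + ((FF m k l 0 : ℝ) +
      Jn m k (sL m k l) (ef m k l' 0) * QT m k (sL m k l)) /
        (Jn m k (sL m k l) l * Real.sqrt (QT m k (sL m k l)))) with hX
  have hX1 : 1 ≤ X := by
    rw [hX]
    have g1 : (1 : ℝ) ≤ (10 : ℝ) ^ (6 * (2 * SS m (sL m k l'))) :=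
      one_le_pow₀ (by norm_num)
    have g2 : (0 : ℝ) ≤ ((FF m k l 0 : ℝ) +
      Jn m k (sL m k l) (ef m k l' 0) * QT m k (sL m k l)) /
        (Jn m k (sL m k l) l * Real.sqrt (QT m k (sL m k l))) := by positivity
    nlinarith
  have hnR2 : (nR : ℝ) / 2 ≤ X := by
    have g1 : (nR : ℝ) ≤ (⌈X⌉₊ : ℝ) := by exact_mod_cast hnR
    have g2 := Nat.ceil_lt_add_one (zero_le_one.trans hX1)
    linarith
  have key := h1 (sL m k l') l' l l1 (h3 l' l3) hd.ll.le (by rw [← hs]; exact hC) hD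
    ((nB : ℝ) / 17) ((nR : ℝ) / 2) nY (34 * (MSp m k l' l o o').C) (MSp m k l' l o o').Lam
    (MSp m k l' l o o').q (by positivity) (by positivity) (by positivity) (by positivity)
    (by
      have g1 : (nB : ℝ) ≤ 17 * (RT m k (sL m k l') : ℝ) := by exact_mod_cast hnB
      have g2 : (RT m k (sL m k l') : ℝ) ≤ (10 ^ 6) ^ SS m (sL m k l') := by
        exact_mod_cast RT_le hm k (sL m k l')
      have g3 : (nB : ℝ) / 17 ≤ (RT m k (sL m k l') : ℝ) := by linarith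
      exact g3.trans g2)
    (by
      rw [← hs, ← e0, ← e1, ← pow_mul]
      exact hnR2)
    (by rw [← hs]; exact hnY)
    (by
      have g1 : ((MSp m k l' l o o').C : ℝ) ≤ (2 * BP k) ^ 7 := by
        exact_mod_cast MSp_C_le
      linarith)
    (by exact_mod_cast MSp_Lam_le hd)
    (by rw [← hs]; exact_mod_cast q1)
    (by
      rw [← hs, ← e0, ← e1]
      exact_mod_cast q2)
  rw [← hs, ← e0, ← e1] at key
  refine le_trans (le_of_eq ?_) key
  rw [MSp_Ne, MSp_Ne']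
  push_cast
  ring

end Pool.Agent.Helper12.T5b
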