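import Pool.Agent.Helper12.T5b.NumS3c

/-!
# T5b, (S3'), middle distance: the numbers, abstract form

`W`, `W0` = sizes of the outermost static level of the lower state and of the next one, `D` =
distance, `x`, `x'` = leads of the fronts of the size `W` of the two states.
-/

set_option autoImplicit false

namespace Pool.Agent.Helper12.T5b

/-- product of three bounds -/
theorem e3_le {lam W a1 a2 a3 t : ℝ} (hlam : 13 ≤ lam) (h : a1 + a2 + a3 ≤ -(W / 200)) :
    Real.exp (lam * a1) * (Real.exp (lam * a2 + t) * Real.exp (lam * a3)) ≤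
      Real.exp t * Real.exp (-(lam * W / 200)) := by
  rw [← Real.exp_add, ← Real.exp_add, ← Real.exp_add]
  apply Real.exp_le_exp.2
  have h1 := mul_le_mul_of_nonneg_left h (by linarith : 0 ≤ lam)
  linarith

/-- **the numbers of (S3'), abstract form** -/
theorem s3m_real {lam W D x x' β J J' F1 Nf Q qs RTs A A1 U ρ0 cap C Lam μ nY E1 : ℝ}
    (hlam : 13 ≤ lam) (hW : 0 ≤ W) (hβ : 0 ≤ β)
    (hx1 : 11 * W ≤ 1024 * x) (hx2 : 1024 * x ≤ 13 * W) (hD1 : 7 * W ≤ 20 * D)
    (hJ : 0 < J) (hJ' : 0 < J') (hF1 : 0 < F1) (hNf : 0 < Nf) (hQ : 0 < Q) (hqs : 0 < qs)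
    (hRTs : 0 ≤ RTs) (hρ0 : 0 ≤ ρ0) (hcap : 0 ≤ cap) (hC : 0 ≤ C) (hLam0 : 0 ≤ Lam)
    (hμ0 : 0 ≤ μ) (hnY0 : 0 ≤ nY) (hA0 : 0 ≤ A)
    (h1 : A ≤ 2 * Nf * Q) (h2 : A1 = A + F1 * Q) (h3 : U = 17 * RTs * (J' * Q))
    (h4 : Nf * Real.exp (lam * (D + x - x')) ≤ F1) (h45 : Nf ≤ F1)
    (h5 : F1 ≤ J * qs)
    (h6 : D + x ≤ W → F1 ≤ J' * Real.exp (lam * (D + x + W / 5000)))
    (h7 : J' * Real.exp (lam * D) ≤ J) (h8 : RTs ≤ Real.exp (lam * W))
    (h9 : Real.exp (lam * (W / 2) - β) ≤ qs)
    (h10 : Lam ≤ Real.exp (lam * (D / 2 - x' + W / 10000)))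
    (h11 : 1 / Real.sqrt Q ≤ Real.exp (-(lam * (D + x - x'))))
    (hE1 : E1 ≤ 8 * ((2 * ρ0 * (1 + A / (F1 * Real.sqrt Q))) *
      (2 * cap * (1 + (A1 + U) / (J * Q * qs))) *
      (2 * cap * (1 + min A1 U / (J' * Q * qs)))))
    (hnY : nY ≤ Real.sqrt Q) (hμ : μ ≤ 1 / Q)
    (hG : 153600 * (ρ0 * cap ^ 2 * C * Real.exp (2 * β)) ≤ Real.exp (W / 25)) :
    E1 * (nY * (C * Lam * (2 * μ))) ≤ Real.exp (-(W / 64)) := by
  have hlam0 : 0 < lam := by linarith
  have hsQ : 0 < Real.sqrt Q := Real.sqrt_pos.2 hQ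
  have hss : Real.sqrt Q * Real.sqrt Q = Q := Real.mul_self_sqrt hQ.le
  have hA10 : 0 ≤ A1 := by rw [h2]; positivity
  have hU0 : 0 ≤ U := by rw [h3]; positivity
  have hA1 : A1 ≤ 3 * (F1 * Q) := by
    rw [h2]
    have : Nf * Q ≤ F1 * Q := mul_le_mul_of_nonneg_right h45 hQ.le
    linarith
  set e0 := Real.exp (-(lam * (D + x - x'))) with he0
  have he0p : 0 < e0 := Real.exp_pos _
  -- `1 / qs`
  have hq1 : 1 / qs ≤ Real.exp (β - lam * (W / 2)) := by
    rw [div_le_iff₀ hqs]
    have h12 : Real.exp (β - lam * (W / 2)) * Real.exp (lam * (W / 2) - β) = 1 := by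
      rw [← Real.exp_add]
      simp
    calc (1 : ℝ) = Real.exp (β - lam * (W / 2)) * Real.exp (lam * (W / 2) - β) := h12.symm
      _ ≤ _ := mul_le_mul_of_nonneg_left h9 (Real.exp_pos _).le
  -- the level of the newborn triple
  have s1 : (1 + A / (F1 * Real.sqrt Q)) ≤ Real.sqrt Q * (3 * e0) := by
    have t1 : (1 : ℝ) ≤ Real.sqrt Q * e0 := by
      rwa [div_le_iff₀ hsQ, mul_comm] at h11
    have t2 : A / (F1 * Real.sqrt Q) ≤ Real.sqrt Q * (2 * e0) := by
      rw [div_le_iff₀ (by positivity)]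
      have t3 : Nf ≤ F1 * e0 := by
        rw [he0, Real.exp_neg, ← div_eq_mul_inv, le_div_iff₀ (Real.exp_pos _)]
        exact h4
      calc A ≤ 2 * Nf * Q := h1
        _ ≤ 2 * (F1 * e0) * Q := by gcongr
        _ = 2 * (F1 * e0) * (Real.sqrt Q * Real.sqrt Q) := by rw [hss]
        _ = _ := by ring
    linarith
  -- the upper windows
  set a2 := Real.exp (lam * (W / 2 - D) + β) with ha2
  have ha2p : 0 < a2 := Real.exp_pos _
  have s2 : 1 + (A1 + U) / (J * Q * qs) ≤ 4 + 17 * a2 := by
    have t1 : A1 / (J * Q * qs) ≤ 3 := by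
      rw [div_le_iff₀ (by positivity)]
      calc A1 ≤ 3 * (F1 * Q) := hA1
        _ ≤ 3 * ((J * qs) * Q) := by gcongr
        _ = _ := by ring
    have t2 : U / (J * Q * qs) ≤ 17 * a2 := by
      have t3 : J' / J ≤ Real.exp (-(lam * D)) := by
        rw [div_le_iff₀ hJ, Real.exp_neg, inv_mul_eq_div, le_div_iff₀ (Real.exp_pos _)]
        exact h7
      calc U / (J * Q * qs) = 17 * (RTs * ((J' / J) * (1 / qs))) := by
            rw [h3]
            field_simp
        _ ≤ 17 * (Real.exp (lam * W) *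
            (Real.exp (-(lam * D)) * Real.exp (β - lam * (W / 2)))) := by
            gcongr
        _ = 17 * a2 := by
            rw [ha2, ← Real.exp_add, ← Real.exp_add]
            congr 2
            ring
    rw [add_div]
    linarith
  -- the lower windows
  set M := min A1 U / (J' * Q * qs) with hM
  have hM0 : 0 ≤ M := div_nonneg (le_min hA10 hU0) (by positivity)
  have hM1 : D + x ≤ W → M ≤ 3 * Real.exp (lam * (D + x + W / 5000 - W / 2) + β) := by
    intro hDx
    have t1 : M ≤ A1 / (J' * Q * qs) :=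
      div_le_div_of_nonneg_right (min_le_left _ _) (by positivity)
    refine t1.trans ?_
    calc A1 / (J' * Q * qs) ≤ 3 * (J' * Real.exp (lam * (D + x + W / 5000)) * Q) /
          (J' * Q * qs) := by
          refine div_le_div_of_nonneg_right (hA1.trans ?_) (by positivity)
          have := h6 hDx
          gcongr
      _ = 3 * (Real.exp (lam * (D + x + W / 5000)) * (1 / qs)) := by
          field_simp
      _ ≤ 3 * (Real.exp (lam * (D + x + W / 5000)) * Real.exp (β - lam * (W / 2))) := by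
          gcongr
      _ = _ := by
          rw [← Real.exp_add]
          congr 2
          ring
  have hM2 : M ≤ 17 * Real.exp (lam * (W / 2) + β) := by
    have t1 : M ≤ U / (J' * Q * qs) :=
      div_le_div_of_nonneg_right (min_le_right _ _) (by positivity)
    refine t1.trans ?_
    calc U / (J' * Q * qs) = 17 * (RTs * (1 / qs)) := by
          rw [h3]
          field_simp
      _ ≤ 17 * (Real.exp (lam * W) * Real.exp (β - lam * (W / 2))) := by
          gcongr
      _ = _ := by
          rw [← Real.exp_add]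
          congr 2
          ring
  -- the labels
  set a1 := Real.exp (lam * (-(D / 2) - x + W / 10000)) with ha1
  have ha1p : 0 < a1 := Real.exp_pos _
  have s4 : Lam * e0 ≤ a1 := by
    calc Lam * e0 ≤ Real.exp (lam * (D / 2 - x' + W / 10000)) * e0 := by gcongr
      _ = a1 := by
          rw [he0, ha1, ← Real.exp_add]
          congr 1
          ring
  -- the four terms
  set T := Real.exp (-(lam * W / 200)) with hT
  have hTp : 0 < T := Real.exp_pos _
  have hb1 : 1 ≤ Real.exp β := Real.one_le_exp hβ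
  have hb2 : Real.exp β * Real.exp β = Real.exp (2 * β) := by
    rw [← Real.exp_add]
    congr 1
    ring
  have hb3 : Real.exp β ≤ Real.exp (2 * β) := by
    rw [← hb2]
    nlinarith
  have hb4 : 1 ≤ Real.exp (2 * β) := hb1.trans hb3
  have u1 : a1 ≤ T := by
    rw [ha1, hT]
    apply Real.exp_le_exp.2
    have : lam * (-(D / 2) - x + W / 10000) ≤ lam * (-(W / 200)) :=
      mul_le_mul_of_nonneg_left (by linarith) hlam0.le
    linarith
  have u2 : a1 * a2 ≤ Real.exp β * T := by
    rw [ha1, ha2, hT, ← Real.exp_add, ← Real.exp_add]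
    apply Real.exp_le_exp.2
    have : lam * (-(D / 2) - x + W / 10000 + (W / 2 - D)) ≤ lam * (-(W / 200)) :=
      mul_le_mul_of_nonneg_left (by linarith) hlam0.le
    linarith
  have u3 : a1 * M ≤ 17 * (Real.exp β * T) := by
    rcases le_total (D + x) W with h | h
    · have v1 : a1 * Real.exp (lam * (D + x + W / 5000 - W / 2) + β) ≤ Real.exp β * T := by
        rw [ha1, hT, ← Real.exp_add, ← Real.exp_add]
        apply Real.exp_le_exp.2
        have : lam * (-(D / 2) - x + W / 10000 + (D + x + W / 5000 - W / 2)) ≤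
            lam * (-(W / 200)) := mul_le_mul_of_nonneg_left (by linarith) hlam0.le
        linarith
      have v2 := mul_le_mul_of_nonneg_left (hM1 h) ha1p.le
      have v3 : 0 ≤ Real.exp β * T := by positivity
      linarith
    · have v1 : a1 * Real.exp (lam * (W / 2) + β) ≤ Real.exp β * T := by
        rw [ha1, hT, ← Real.exp_add, ← Real.exp_add]
        apply Real.exp_le_exp.2
        have : lam * (-(D / 2) - x + W / 10000 + W / 2) ≤
            lam * (-(W / 200)) := mul_le_mul_of_nonneg_left (by linarith) hlam0.le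
        linarith
      have v2 := mul_le_mul_of_nonneg_left hM2 ha1p.le
      linarith
  have u4 : a1 * a2 * M ≤ 17 * (Real.exp (2 * β) * T) := by
    rcases le_total (D + x) W with h | h
    · have v1 : a1 * a2 * Real.exp (lam * (D + x + W / 5000 - W / 2) + β) ≤
          Real.exp (2 * β) * T := by
        rw [ha1, ha2, hT, ← Real.exp_add, ← Real.exp_add, ← Real.exp_add]
        apply Real.exp_le_exp.2
        have : lam * (-(D / 2) - x + W / 10000 + (W / 2 - D) + (D + x + W / 5000 - W / 2)) ≤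
            lam * (-(W / 200)) := mul_le_mul_of_nonneg_left (by linarith) hlam0.le
        linarith
      have v2 := mul_le_mul_of_nonneg_left (hM1 h) (mul_pos ha1p ha2p).le
      have v3 : 0 ≤ Real.exp (2 * β) * T := by positivity
      linarith
    · have v1 : a1 * a2 * Real.exp (lam * (W / 2) + β) ≤ Real.exp (2 * β) * T := by
        rw [ha1, ha2, hT, ← Real.exp_add, ← Real.exp_add, ← Real.exp_add]
        apply Real.exp_le_exp.2
        have : lam * (-(D / 2) - x + W / 10000 + (W / 2 - D) + W / 2) ≤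
            lam * (-(W / 200)) := mul_le_mul_of_nonneg_left (by linarith) hlam0.le
        linarith
      have v2 := mul_le_mul_of_nonneg_left hM2 (mul_pos ha1p ha2p).le
      linarith
  have u5 : a1 * ((4 + 17 * a2) * (1 + M)) ≤ 400 * (Real.exp (2 * β) * T) := by
    have w1 : T ≤ Real.exp (2 * β) * T := le_mul_of_one_le_left hTp.le hb4
    have w2 : Real.exp β * T ≤ Real.exp (2 * β) * T := mul_le_mul_of_nonneg_right hb3 hTp.le
    have w3 : a1 * ((4 + 17 * a2) * (1 + M)) =
        4 * a1 + 17 * (a1 * a2) + 4 * (a1 * M) + 17 * (a1 * a2 * M) := by ring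
    rw [w3]
    linarith
  -- the product
  have hfin : 8 * ((2 * ρ0 * (1 + A / (F1 * Real.sqrt Q))) *
      (2 * cap * (1 + (A1 + U) / (J * Q * qs))) * (2 * cap * (1 + M))) *
      (Real.sqrt Q * (C * Lam * (2 * (1 / Q)))) ≤ Real.exp (-(W / 64)) := by
    have p1 : 0 ≤ A / (F1 * Real.sqrt Q) := by positivity
    have p2 : 0 ≤ (A1 + U) / (J * Q * qs) := by positivity
    calc 8 * ((2 * ρ0 * (1 + A / (F1 * Real.sqrt Q))) *
          (2 * cap * (1 + (A1 + U) / (J * Q * qs))) * (2 * cap * (1 + M))) *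
          (Real.sqrt Q * (C * Lam * (2 * (1 / Q))))
        ≤ 8 * ((2 * ρ0 * (Real.sqrt Q * (3 * e0))) *
          (2 * cap * (4 + 17 * a2)) * (2 * cap * (1 + M))) *
          (Real.sqrt Q * (C * Lam * (2 * (1 / Q)))) := by
          gcongr
      _ = 384 * (ρ0 * cap ^ 2 * C * ((Lam * e0) * ((4 + 17 * a2) * (1 + M)))) *
          ((Real.sqrt Q * Real.sqrt Q) / Q) := by
          ring
      _ = 384 * (ρ0 * cap ^ 2 * C * ((Lam * e0) * ((4 + 17 * a2) * (1 + M)))) := by
          rw [hss, div_self hQ.ne', mul_one]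
      _ ≤ 384 * (ρ0 * cap ^ 2 * C * (a1 * ((4 + 17 * a2) * (1 + M)))) := by
          gcongr
      _ ≤ 384 * (ρ0 * cap ^ 2 * C * (400 * (Real.exp (2 * β) * T))) := by
          gcongr
      _ = 153600 * (ρ0 * cap ^ 2 * C * Real.exp (2 * β)) * T := by
          ring
      _ ≤ Real.exp (W / 25) * T := mul_le_mul_of_nonneg_right hG hTp.le
      _ ≤ Real.exp (-(W / 64)) := by
          rw [hT, ← Real.exp_add]
          apply Real.exp_le_exp.2
          have : 13 * W ≤ lam * W := mul_le_mul_of_nonneg_right hlam hW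
          linarith
  rcases le_or_gt 0 E1 with hn | hn
  · refine le_trans ?_ hfin
    have p0 : 0 ≤ nY * (C * Lam * (2 * μ)) := by positivity
    refine (mul_le_mul_of_nonneg_right hE1 p0).trans ?_
    refine mul_le_mul_of_nonneg_left ?_ (hn.trans hE1)
    gcongr
  · refine le_trans ?_ (Real.exp_pos _).le
    exact mul_nonpos_of_nonpos_of_nonneg hn.le (by positivity)

end Pool.Agent.Helper12.T5b
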