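import Pool.Agent.Helper1.T5b.ZDefs
import Pool.Agent.Helper22.NEARb.NearR
import Pool.Agent.Helper54.T5b.KeysOf

/-!
# T5b (MP_12a1af), lines 6 and 7, Z8: the sizes
-/

set_option autoImplicit false

namespace Pool.Agent.Helper12.T5b

open Finset
open Pool.Agent.Helper5.ET hiding Key Mk AA Rp keysOf el ext
open Pool.Agent.Helper27.T4
open Pool.Agent.Helper27.T5b hiding FF_pos dvd_cs cs_lt QQ_eq_NN c0_lt Jn_pos
open Pool.Agent.Helper37.T5b
open Pool.Agent.Helper30.T5b hiding pz_prime pz_inj NL_pos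
open Pool.Agent.Helper22.HW Pool.Agent.Helper22.SL Pool.Agent.Helper57.T5
open Pool.Agent.Helper39.T5 Pool.Agent.Helper50.T5
open Pool.Agent.Helper84.T5b Pool.Agent.Helper44.T5 Pool.Agent.Helper44.T5b
open Pool.Agent.Helper22.NEARb Pool.Agent.Helper75.T5 Pool.Agent.Helper1.T5
open Pool.Agent.Helper1.T5b

/-- `A B ^ l ≤ exp ((A + B) l)` -/
theorem mul_pow_le_exp (A B l : ℕ) (hl : 1 ≤ l) :
    ((A * B ^ l : ℕ) : ℝ) ≤ Real.exp (((A + B : ℕ) : ℝ) * l) := by
  have h1 : (A : ℝ) ≤ Real.exp ((A : ℝ) * l) := by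
    have h2 := Real.add_one_le_exp ((A : ℝ) * l)
    have h3 : (A : ℝ) * 1 ≤ (A : ℝ) * l :=
      mul_le_mul_of_nonneg_left (by exact_mod_cast hl) (Nat.cast_nonneg _)
    linarith
  have h2 : ((B : ℝ)) ^ l ≤ Real.exp ((B : ℝ) * l) := by
    rw [mul_comm, Real.exp_nat_mul]
    refine pow_le_pow_left₀ (Nat.cast_nonneg _) ?_ l
    have := Real.add_one_le_exp (B : ℝ)
    linarith
  push_cast
  rw [add_mul, Real.exp_add]
  exact mul_le_mul h1 h2 (by positivity) (Real.exp_pos _).le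

theorem NL_le_pow (m k l : ℕ) : NL m k l ≤ NL m k 0 * BP k ^ l := by
  induction l with
  | zero => simp
  | succ l ih =>
    refine (NL_succ_le m k l).trans ?_
    calc BP k * NL m k l ≤ BP k * (NL m k 0 * BP k ^ l) := Nat.mul_le_mul_left _ ih
      _ = _ := by ring

theorem IJ_le_Jn (m k l l' : ℕ) : IJ m k l l' ≤ Jn m k (sL m k l) l := by
  unfold IJ Jn NN
  refine Finset.prod_le_prod' (fun i _ => ?_)
  refine Nat.pow_le_pow_right (pJ_prime k (sL m k l) i).pos ?_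
  unfold uJ
  omega

/-- **Z8** -/
theorem sizeZS {m k : ℕ} (hm : 2 ≤ m) (_hk : 3 ≤ k) : SizeZS m k := by
  have hm0 : 0 < m := by omega
  obtain ⟨l0, h0⟩ := exists_conds hm0 k
  set K7 := (2 * (1000039 + BP k)) ^ 7 with hK7
  set A := (34 + K7) * NL m k 0 + 1 with hA
  refine ⟨l0 + 1, A + BP k, fun l hl => ?_⟩
  obtain ⟨b1, -, b3, -⟩ := h0 l (by omega)
  have hl1 : 1 ≤ l := by omega
  have hBP : 1 ≤ BP k ^ l := Nat.one_le_pow _ _ (by have := buf_lt_BP k; omega)
  have hN := NL_le_pow m k l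
  refine ⟨?_, ?_, ?_⟩
  · refine le_trans ?_ (mul_pow_le_exp A (BP k) l hl1)
    have : 34 * NL m k l + 1 ≤ A * BP k ^ l := by
      rw [hA]
      nlinarith [Nat.zero_le (K7 * NL m k 0 * BP k ^ l)]
    exact_mod_cast this
  · have h1 : mL m k l ≤ l := l1_le _ _
    have h2 : SS m (sL m k l) ≤ SS m (sL m k l + 1) := SS_mono m (Nat.le_succ _)
    show SS m (sL m k l - 0) ≤ l
    rw [Nat.sub_zero]
    omega
  · intro l' _ _
    refine le_trans ?_ (mul_pow_le_exp A (BP k) l hl1)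
    have h1 : CJ k (sL m k l) ≤ K7 := CJ_le k _
    have h2 : IJ m k l l' ≤ NL m k l :=
      (IJ_le_Jn m k l l').trans (Pool.Agent.Helper54.T5b.Jn_le_NL hm0 b1)
    have : CJ k (sL m k l) * IJ m k l l' ≤ A * BP k ^ l := by
      calc CJ k (sL m k l) * IJ m k l l' ≤ K7 * (NL m k 0 * BP k ^ l) :=
            Nat.mul_le_mul h1 (h2.trans hN)
        _ = K7 * NL m k 0 * BP k ^ l := by ring
        _ ≤ A * BP k ^ l := by
            refine Nat.mul_le_mul_right _ ?_
            rw [hA, add_mul]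
            omega
    exact_mod_cast this

end Pool.Agent.Helper12.T5b
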